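import Mathlib

/-! The chain lemma: the shift graph has large chromatic number. -/

set_option autoImplicit false

namespace Q109.Circ

/-- a chain `c 0 < c 1 < ⋯ < c m` ending with `i = c (m-1)`, `j = c m`, along which the values of
`q` on consecutive pairs are related by `r` -/
def Ch {N : ℕ} (q : Fin N → Fin N → ℕ) (r : ℕ → ℕ → Prop) (m : ℕ) (i j : Fin N) : Prop :=
  ∃ c : ℕ → Fin N, (∀ t, t < m → c t < c (t + 1)) ∧
    (∀ t, t + 1 < m → r (q (c t) (c (t + 1))) (q (c (t + 1)) (c (t + 2)))) ∧
    c (m - 1) = i ∧ c m = j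

lemma ch_one {N : ℕ} (q : Fin N → Fin N → ℕ) (r : ℕ → ℕ → Prop) {i j : Fin N} (h : i < j) :
    Ch q r 1 i j := by
  refine ⟨fun t => if t = 0 then i else j, ?_, ?_, by simp, by simp⟩
  · intro t ht
    have : t = 0 := by omega
    subst this
    simpa using h
  · intro t ht
    omega

lemma ch_succ {N : ℕ} (q : Fin N → Fin N → ℕ) (r : ℕ → ℕ → Prop) {m : ℕ} (hm : 1 ≤ m)
    {i j l : Fin N} (h : Ch q r m i j) (hjl : j < l) (hr : r (q i j) (q j l)) :
    Ch q r (m + 1) j l := by
  obtain ⟨c, h1, h2, h3, h4⟩ := h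
  have hc : ∀ t, t ≤ m → (fun t => if t ≤ m then c t else l) t = c t := by
    intro t ht
    simp [ht]
  have hl : (fun t => if t ≤ m then c t else l) (m + 1) = l := by simp
  refine ⟨fun t => if t ≤ m then c t else l, ?_, ?_, ?_, hl⟩
  · intro t ht
    rcases Nat.lt_or_ge t m with h | h
    · rw [hc t (by omega), hc (t + 1) (by omega)]
      exact h1 t h
    · have : t = m := by omega
      subst this
      rw [hc t le_rfl, hl, h4]
      exact hjl
  · intro t ht
    rcases Nat.lt_or_ge (t + 1) m with h | h
    · rw [hc t (by omega), hc (t + 1) (by omega), hc (t + 2) (by omega)]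
      exact h2 t h
    · have : m = t + 1 := by omega
      subst this
      rw [hc t (by omega), hc (t + 1) le_rfl, hl, h4]
      simp only [Nat.add_sub_cancel] at h3
      rw [h3]
      exact hr
  · rw [Nat.add_sub_cancel, hc m le_rfl, h4]

/-- every function on pairs has a long ascending or descending chain -/
theorem chain {k N : ℕ} (hk : 1 ≤ k) (hN : 2 ^ (k * k) < N) (q : Fin N → Fin N → ℕ)
    (hq : ∀ i j l : Fin N, i < j → j < l → q i j ≠ q j l) :
    (∃ i j, Ch q (· < ·) k i j) ∨ (∃ i j, Ch q (· > ·) k i j) := by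
  classical
  by_contra hcon
  push Not at hcon
  obtain ⟨hA, hD⟩ := hcon
  let u : Fin N → Fin N → ℕ := fun i j => Nat.findGreatest (fun m => Ch q (· < ·) m i j) k
  let d : Fin N → Fin N → ℕ := fun i j => Nat.findGreatest (fun m => Ch q (· > ·) m i j) k
  have hu1 : ∀ i j, i < j → Ch q (· < ·) (u i j) i j ∧ 1 ≤ u i j := by
    intro i j hij
    exact ⟨Nat.findGreatest_spec (P := fun m => Ch q (· < ·) m i j) hk (ch_one q _ hij),
      Nat.le_findGreatest hk (ch_one q _ hij)⟩
  have hd1 : ∀ i j, i < j → Ch q (· > ·) (d i j) i j ∧ 1 ≤ d i j := by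
    intro i j hij
    exact ⟨Nat.findGreatest_spec (P := fun m => Ch q (· > ·) m i j) hk (ch_one q _ hij),
      Nat.le_findGreatest hk (ch_one q _ hij)⟩
  have huk : ∀ i j, i < j → u i j < k := by
    intro i j hij
    have h1 : u i j ≤ k := Nat.findGreatest_le _
    rcases Nat.lt_or_ge (u i j) k with h | h
    · exact h
    · have : u i j = k := by omega
      exact absurd (this ▸ (hu1 i j hij).1) (hA i j)
  have hdk : ∀ i j, i < j → d i j < k := by
    intro i j hij
    have h1 : d i j ≤ k := Nat.findGreatest_le _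
    rcases Nat.lt_or_ge (d i j) k with h | h
    · exact h
    · have : d i j = k := by omega
      exact absurd (this ▸ (hd1 i j hij).1) (hD i j)
  have hne : ∀ i j l, i < j → j < l → (u i j, d i j) ≠ (u j l, d j l) := by
    intro i j l hij hjl heq
    simp only [Prod.mk.injEq] at heq
    rcases lt_or_gt_of_ne (hq i j l hij hjl) with h | h
    · have h1 := ch_succ q (· < ·) (hu1 i j hij).2 (hu1 i j hij).1 hjl h
      have h2 : u i j + 1 ≤ u j l := Nat.le_findGreatest (huk i j hij) h1
      omega
    · have h1 := ch_succ q (· > ·) (hd1 i j hij).2 (hd1 i j hij).1 hjl h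
      have h2 : d i j + 1 ≤ d j l := Nat.le_findGreatest (hdk i j hij) h1
      omega
  -- colour sets
  let C : Fin N → Finset (ℕ × ℕ) := fun i =>
    ((Finset.univ : Finset (Fin N)).filter (fun l => i < l)).image (fun l => (u i l, d i l))
  have hCsub : ∀ i, C i ∈ (Finset.range k ×ˢ Finset.range k).powerset := by
    intro i
    rw [Finset.mem_powerset]
    intro x hx
    obtain ⟨l, hl, rfl⟩ := Finset.mem_image.1 hx
    have hil := (Finset.mem_filter.1 hl).2
    rw [Finset.mem_product, Finset.mem_range, Finset.mem_range]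
    exact ⟨huk i l hil, hdk i l hil⟩
  have hCinj : Function.Injective C := by
    have key : ∀ i j, i < j → C i ≠ C j := by
      intro i j hij heq
      have h1 : (u i j, d i j) ∈ C i :=
        Finset.mem_image.2 ⟨j, Finset.mem_filter.2 ⟨Finset.mem_univ _, hij⟩, rfl⟩
      rw [heq] at h1
      obtain ⟨l, hl, h2⟩ := Finset.mem_image.1 h1
      exact hne i j l hij (Finset.mem_filter.1 hl).2 h2.symm
    intro i j h
    by_contra hne
    rcases lt_or_gt_of_ne hne with h1 | h1
    · exact key i j h1 h
    · exact key j i h1 h.symm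
  have h1 : (Finset.univ : Finset (Fin N)).card ≤
      ((Finset.range k ×ˢ Finset.range k).powerset).card :=
    Finset.card_le_card_of_injOn C (fun i _ => Finset.mem_coe.2 (hCsub i)) hCinj.injOn
  rw [Finset.card_powerset, Finset.card_product, Finset.card_range, Finset.card_univ,
    Fintype.card_fin] at h1
  omega

end Q109.Circ
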