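import Mathlib

/-! Circular orders on finite sets as arrangements. -/

set_option autoImplicit false

namespace Q109.Circ

/-- the cyclic order of three natural numbers -/
def cyc (x y z : ℕ) : Prop := (x < y ∧ y < z) ∨ (y < z ∧ z < x) ∨ (z < x ∧ x < y)

theorem exists_pos {V : Type*} [Finite V] (o : CircularOrder V) :
    ∃ pos : V → ℕ, Function.Injective pos ∧
      ∀ a b c, o.sbtw a b c ↔ cyc (pos a) (pos b) (pos c) := by
  classical
  have := Fintype.ofFinite V
  rcases isEmpty_or_nonempty V with hV | ⟨⟨v⟩⟩
  · exact ⟨fun _ => 0, fun a => (hV.false a).elim, fun a => (hV.false a).elim⟩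
  let R : V → V → Prop := fun x y => (x = v ∧ y ≠ v) ∨ sbtw v x y
  have hv1 : ∀ x, ¬ sbtw v v x := fun x => sbtw_irrefl_left
  have hv2 : ∀ x, ¬ sbtw v x v := fun x => sbtw_irrefl_left_right
  have hv3 : ∀ x, ¬ sbtw v x x := fun x => sbtw_irrefl_right
  have hirr : ∀ x, ¬ R x x := by
    rintro x (⟨h1, h2⟩ | h)
    · exact h2 h1
    · exact hv3 x h
  have htrans : ∀ x y z, R x y → R y z → R x z := by
    rintro x y z (⟨rfl, h2⟩ | h1) (⟨rfl, h4⟩ | h3)
    · exact absurd rfl h2
    · refine Or.inl ⟨rfl, ?_⟩
      rintro rfl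
      exact hv2 _ h3
    · exact absurd h1 (hv2 _)
    · exact Or.inr (sbtw_trans_right h1 h3)
  have htot : ∀ x y, x ≠ y → R x y ∨ R y x := by
    intro x y hxy
    by_cases hx : x = v
    · subst hx
      exact Or.inl (Or.inl ⟨rfl, hxy.symm⟩)
    by_cases hy : y = v
    · subst hy
      exact Or.inr (Or.inl ⟨rfl, hxy⟩)
    by_cases h : btw y x v
    · right; right
      have h2 : ¬ btw v x y := by
        intro h3
        rcases btw_antisymm h h3 with h4 | h4 | h4
        · exact hxy h4.symm
        · exact hx h4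
        · exact hy h4.symm
      exact (sbtw_of_btw_not_btw h h2).cyclic_right
    · left; right
      exact sbtw_iff_not_btw.2 h
  have hsb : ∀ a b c, R a b → R b c → sbtw a b c := by
    intro a b c hab hbc
    rcases hab with ⟨rfl, hb⟩ | hab
    · rcases hbc with ⟨h, -⟩ | h
      · exact absurd h hb
      · exact h
    · rcases hbc with ⟨rfl, -⟩ | hbc
      · exact absurd hab (hv2 _)
      · have h1 : sbtw b c v := hbc.cyclic_left
        have h2 : sbtw b v a := hab.cyclic_right
        exact (sbtw_trans_right h1 h2).cyclic_right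
  let pos : V → ℕ := fun x => (Finset.univ.filter (fun z => R z x)).card
  have hmono : ∀ x y, R x y → pos x < pos y := by
    intro x y h
    apply Finset.card_lt_card
    refine ⟨fun z hz => ?_, fun hc => ?_⟩
    · exact Finset.mem_filter.2 ⟨Finset.mem_univ _, htrans z x y (Finset.mem_filter.1 hz).2 h⟩
    · exact hirr x (Finset.mem_filter.1 (hc (Finset.mem_filter.2 ⟨Finset.mem_univ _, h⟩))).2
  have hinj : Function.Injective pos := by
    intro x y h
    by_contra hne
    rcases htot x y hne with h1 | h1
    · exact absurd h (hmono x y h1).ne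
    · exact absurd h (hmono y x h1).ne'
  have hiff : ∀ x y, pos x < pos y ↔ R x y := by
    intro x y
    constructor
    · intro h
      by_cases hxy : x = y
      · subst hxy; exact absurd h (lt_irrefl _)
      · rcases htot x y hxy with h1 | h1
        · exact h1
        · exact absurd (hmono y x h1) (by omega)
    · exact hmono x y
  have hback : ∀ a b c, cyc (pos a) (pos b) (pos c) → sbtw a b c := by
    rintro a b c (⟨h1, h2⟩ | ⟨h1, h2⟩ | ⟨h1, h2⟩)
    · exact hsb a b c ((hiff _ _).1 h1) ((hiff _ _).1 h2)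
    · exact (hsb b c a ((hiff _ _).1 h1) ((hiff _ _).1 h2)).cyclic_right
    · exact (hsb c a b ((hiff _ _).1 h1) ((hiff _ _).1 h2)).cyclic_left
  refine ⟨pos, hinj, fun a b c => ⟨fun h => ?_, hback a b c⟩⟩
  by_contra hc
  have hab : pos a ≠ pos b := fun h1 => by
    rw [hinj h1] at h
    exact sbtw_irrefl_left h
  have hbc : pos b ≠ pos c := fun h1 => by
    rw [hinj h1] at h
    exact sbtw_irrefl_right h
  have hac : pos a ≠ pos c := fun h1 => by
    rw [hinj h1] at h
    exact sbtw_irrefl_left_right h
  have h2 : cyc (pos c) (pos b) (pos a) := by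
    unfold cyc at hc ⊢
    omega
  exact sbtw_asymm h (hback c b a h2)

end Q109.Circ
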