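import Pool.Agent.Q109.Circ.Zig
import Pool.Agent.Q109.Circ.Pos

/-! The odd cycle in its star-shaped circular arrangement. -/

set_option autoImplicit false

namespace Q109.Circ

/-- The odd cycle on `2k+1` points of a circle, each joined to the two opposite points. -/
def starCycle (k : ℕ) : SimpleGraph (Fin (2 * k + 1)) :=
  SimpleGraph.fromRel (fun v w => v.val + k = w.val ∨ v.val + k + 1 = w.val)

lemma star_adj {k : ℕ} (hk : 1 ≤ k) (v w : Fin (2 * k + 1)) : (starCycle k).Adj v w ↔
    (v.val + k = w.val ∨ v.val + k + 1 = w.val ∨ w.val + k = v.val ∨ w.val + k + 1 = v.val) := by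
  simp only [starCycle, SimpleGraph.fromRel_adj, ne_eq, Fin.ext_iff]
  omega

lemma star_not_colorable {k : ℕ} (hk : 1 ≤ k) : ¬ (starCycle k).Colorable 2 := by
  rintro ⟨c⟩
  have hne : ∀ v w : Fin (2 * k + 1), (starCycle k).Adj v w → (c v).val ≠ (c w).val := by
    intro v w h h2
    exact c.valid h (Fin.ext h2)
  have key : ∀ m, (hm : m ≤ k) → (c ⟨m, by omega⟩).val = (c ⟨0, by omega⟩).val := by
    intro m
    induction m with
    | zero => intro _; rfl
    | succ m ih =>
      intro hm
      have h1 := ih (by omega)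
      have h2 := hne ⟨m, by omega⟩ ⟨m + 1 + k, by omega⟩ (by
        rw [star_adj hk]; right; left; change m + k + 1 = m + 1 + k; omega)
      have h3 := hne ⟨m + 1, by omega⟩ ⟨m + 1 + k, by omega⟩ (by
        rw [star_adj hk]; left; rfl)
      have e1 := (c ⟨m, by omega⟩).2
      have e2 := (c ⟨m + 1 + k, by omega⟩).2
      have e3 := (c ⟨m + 1, by omega⟩).2
      omega
  have h1 := key k le_rfl
  have h2 := hne ⟨0, by omega⟩ ⟨k, by omega⟩ (by
    rw [star_adj hk]; left; change 0 + k = k; omega)
  exact h2 h1.symm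

/-- the position of `v` counted from `v0` -/
def rot (k v0 v : ℕ) : ℕ := if v0 ≤ v then v - v0 else v + (2 * k + 1) - v0

lemma rot_adj {k : ℕ} (hk : 1 ≤ k) (v0 v w : Fin (2 * k + 1)) (hv : v ≠ v0) (hw : w ≠ v0) :
    (starCycle k).Adj v w ↔ (rot k v0 v + k = rot k v0 w ∨ rot k v0 v + k + 1 = rot k v0 w ∨
      rot k v0 w + k = rot k v0 v ∨ rot k v0 w + k + 1 = rot k v0 v) := by
  rw [star_adj hk]
  have h1 := v0.2
  have h2 := v.2
  have h3 := w.2
  have h4 : v.val ≠ v0.val := fun h => hv (Fin.ext h)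
  have h5 : w.val ≠ v0.val := fun h => hw (Fin.ext h)
  unfold rot
  split_ifs <;> omega

lemma rot_range {k : ℕ} (v0 v : Fin (2 * k + 1)) (hv : v ≠ v0) :
    1 ≤ rot k v0 v ∧ rot k v0 v ≤ 2 * k := by
  have h1 := v0.2
  have h2 := v.2
  have h4 : v.val ≠ v0.val := fun h => hv (Fin.ext h)
  unfold rot
  split_ifs <;> omega

lemma rot_cyc {k : ℕ} (v0 v w x : Fin (2 * k + 1)) :
    cyc v.val w.val x.val ↔ cyc (rot k v0 v) (rot k v0 w) (rot k v0 x) := by
  have h0 := v0.2
  have h1 := v.2
  have h2 := w.2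
  have h3 := x.2
  unfold rot cyc
  split_ifs <;> omega

lemma rot_inj {k : ℕ} (v0 v w : Fin (2 * k + 1)) (h : rot k v0 v = rot k v0 w) : v = w := by
  have h0 := v0.2
  have h1 := v.2
  have h2 := w.2
  apply Fin.ext
  unfold rot at h
  split_ifs at h <;> omega

/-- the map from positions to the zigzag -/
def zz {V : Type*} (k : ℕ) (a b : ℕ → V) (t : ℕ) : V := if t ≤ k then a (t - 1) else b (t - k - 1)

lemma zz_adj {V : Type*} {G : SimpleGraph V} {pos : V → ℕ} {k : ℕ} {a b : ℕ → V}
    (hk : 1 ≤ k) (hZ : Zig G pos k a b) {t s : ℕ} (ht : 1 ≤ t) (ht' : t ≤ 2 * k) (hs : 1 ≤ s)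
    (hs' : s ≤ 2 * k) : G.Adj (zz k a b t) (zz k a b s) ↔
      (t + k = s ∨ t + k + 1 = s ∨ s + k = t ∨ s + k + 1 = t) := by
  unfold zz
  split_ifs with h1 h2 h2
  · have := hZ.aa (t - 1) (s - 1)
    constructor
    · intro h; exact absurd h this
    · intro h; omega
  · rw [hZ.ab _ _ (by omega) (by omega)]
    omega
  · rw [SimpleGraph.adj_comm, hZ.ab _ _ (by omega) (by omega)]
    omega
  · have := hZ.bb (t - k - 1) (s - k - 1)
    constructor
    · intro h; exact absurd h this
    · intro h; omega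

lemma zz_cyc {V : Type*} {G : SimpleGraph V} {pos : V → ℕ} {k : ℕ} {a b : ℕ → V}
    (hZ : Zig G pos k a b) {t s r : ℕ} (ht : 1 ≤ t) (ht' : t ≤ 2 * k) (hs : 1 ≤ s)
    (hs' : s ≤ 2 * k) (hr : 1 ≤ r) (hr' : r ≤ 2 * k) :
    cyc t s r ↔ cyc (pos (zz k a b t)) (pos (zz k a b s)) (pos (zz k a b r)) := by
  -- comparison of two positions
  have hcmp : ∀ x y, 1 ≤ x → x ≤ 2 * k → 1 ≤ y → y ≤ 2 * k → x < y →
      ((x ≤ k ∧ y ≤ k) ∨ (k < x ∧ k < y) → pos (zz k a b x) < pos (zz k a b y)) := by
    intro x y hx hx' hy hy' hxy h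
    unfold zz
    rcases h with ⟨h1, h2⟩ | ⟨h1, h2⟩
    · rw [if_pos h1, if_pos h2]
      exact hZ.ma _ _ (by omega) (by omega)
    · rw [if_neg (by omega), if_neg (by omega)]
      exact hZ.mb _ _ (by omega) (by omega)
  rcases hZ.side with hside | hside
  · have hall : ∀ x y, 1 ≤ x → x ≤ 2 * k → 1 ≤ y → y ≤ 2 * k → x < y →
        pos (zz k a b x) < pos (zz k a b y) := by
      intro x y hx hx' hy hy' hxy
      by_cases h : (x ≤ k ∧ y ≤ k) ∨ (k < x ∧ k < y)
      · exact hcmp x y hx hx' hy hy' hxy h
      · have h1 : x ≤ k ∧ k < y := by omega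
        unfold zz
        rw [if_pos h1.1, if_neg (by omega)]
        exact hside _ _ (by omega) (by omega)
    have hiff : ∀ x y, 1 ≤ x → x ≤ 2 * k → 1 ≤ y → y ≤ 2 * k →
        (x < y ↔ pos (zz k a b x) < pos (zz k a b y)) := by
      intro x y hx hx' hy hy'
      constructor
      · exact hall x y hx hx' hy hy'
      · intro h
        rcases Nat.lt_trichotomy x y with h1 | h1 | h1
        · exact h1
        · subst h1; exact absurd h (lt_irrefl _)
        · have := hall y x hy hy' hx hx' h1
          omega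
    unfold cyc
    rw [hiff t s ht ht' hs hs', hiff s r hs hs' hr hr', hiff r t hr hr' ht ht']
  · have hall : ∀ x y, 1 ≤ x → x ≤ k → k < y → y ≤ 2 * k →
        pos (zz k a b y) < pos (zz k a b x) := by
      intro x y hx hx' hy hy'
      unfold zz
      rw [if_pos hx', if_neg (by omega)]
      exact hside _ _ (by omega) (by omega)
    have hiff : ∀ x y, 1 ≤ x → x ≤ 2 * k → 1 ≤ y → y ≤ 2 * k →
        (pos (zz k a b x) < pos (zz k a b y) ↔
          ((x < y ∧ ((x ≤ k ∧ y ≤ k) ∨ (k < x ∧ k < y))) ∨ (k < x ∧ y ≤ k))) := by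
      intro x y hx hx' hy hy'
      by_cases h1 : x ≤ k <;> by_cases h2 : y ≤ k
      · rcases Nat.lt_trichotomy x y with h | h | h
        · have := hcmp x y hx hx' hy hy' h (Or.inl ⟨h1, h2⟩)
          constructor
          · intro _; exact Or.inl ⟨h, Or.inl ⟨h1, h2⟩⟩
          · intro _; exact this
        · subst h
          constructor
          · intro h; exact absurd h (lt_irrefl _)
          · intro h; omega
        · have := hcmp y x hy hy' hx hx' h (Or.inl ⟨h2, h1⟩)
          constructor
          · intro _; omega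
          · intro _; omega
      · have := hall x y hx h1 (by omega) hy'
        constructor
        · intro _; omega
        · intro _; omega
      · have := hall y x hy h2 (by omega) hx'
        constructor
        · intro _; omega
        · intro _; exact this
      · rcases Nat.lt_trichotomy x y with h | h | h
        · have := hcmp x y hx hx' hy hy' h (Or.inr ⟨by omega, by omega⟩)
          constructor
          · intro _; exact Or.inl ⟨h, Or.inr ⟨by omega, by omega⟩⟩
          · intro _; exact this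
        · subst h
          constructor
          · intro h; exact absurd h (lt_irrefl _)
          · intro h; omega
        · have := hcmp y x hy hy' hx hx' h (Or.inr ⟨by omega, by omega⟩)
          constructor
          · intro _; omega
          · intro _; omega
    unfold cyc
    rw [hiff t s ht ht' hs hs', hiff s r hs hs' hr hr', hiff r t hr hr' ht ht']
    omega

lemma zz_inj {V : Type*} {G : SimpleGraph V} {pos : V → ℕ} {k : ℕ} {a b : ℕ → V}
    (hZ : Zig G pos k a b) {t s : ℕ} (ht : 1 ≤ t) (ht' : t ≤ 2 * k) (hs : 1 ≤ s)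
    (hs' : s ≤ 2 * k) (h : zz k a b t = zz k a b s) : t = s := by
  by_contra hne
  have key : ∀ x y, 1 ≤ x → x ≤ 2 * k → 1 ≤ y → y ≤ 2 * k → x < y →
      zz k a b x ≠ zz k a b y := by
    intro x y hx hx' hy hy' hxy he
    unfold zz at he
    split_ifs at he with h1 h2 h2
    · have := hZ.ma (x - 1) (y - 1) (by omega) (by omega)
      rw [he] at this
      exact lt_irrefl _ this
    · rcases hZ.side with h3 | h3
      · have := h3 (x - 1) (y - k - 1) (by omega) (by omega)
        rw [he] at this
        exact lt_irrefl _ this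
      · have := h3 (x - 1) (y - k - 1) (by omega) (by omega)
        rw [he] at this
        exact lt_irrefl _ this
    · omega
    · have := hZ.mb (x - k - 1) (y - k - 1) (by omega) (by omega)
      rw [he] at this
      exact lt_irrefl _ this
  rcases Nat.lt_or_gt_of_ne hne with h1 | h1
  · exact key t s ht ht' hs hs' h1 h
  · exact key s t hs hs' ht ht' h1 h.symm

end Q109.Circ
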