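import Pool.Agent.Q109.Circ.Chain

/-! Every arrangement of a large incidence graph contains a zigzag. -/

set_option autoImplicit false

namespace Q109.Circ

/-- the incidence graph of `{0,…,n-1}` versus all its subsets -/
def Inc (n : ℕ) : SimpleGraph (Fin n ⊕ Finset (Fin n)) :=
  SimpleGraph.fromRel (fun a b => ∃ x A, a = Sum.inl x ∧ b = Sum.inr A ∧ x ∈ A)

lemma inc_lr {n : ℕ} (x : Fin n) (A : Finset (Fin n)) :
    (Inc n).Adj (Sum.inl x) (Sum.inr A) ↔ x ∈ A := by
  simp [Inc]

lemma inc_ll {n : ℕ} (x y : Fin n) : ¬ (Inc n).Adj (Sum.inl x) (Sum.inl y) := by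
  simp [Inc]

lemma inc_rr {n : ℕ} (A B : Finset (Fin n)) : ¬ (Inc n).Adj (Sum.inr A) (Sum.inr B) := by
  simp [Inc]

/-- a zigzag, in an arrangement up to rotation -/
structure Zig {V : Type*} (G : SimpleGraph V) (pos : V → ℕ) (k : ℕ) (a b : ℕ → V) : Prop where
  ab : ∀ i j, i < k → j < k → (G.Adj (a i) (b j) ↔ j = i ∨ j = i + 1)
  aa : ∀ i j, ¬ G.Adj (a i) (a j)
  bb : ∀ i j, ¬ G.Adj (b i) (b j)
  ma : ∀ i j, i < j → j < k → pos (a i) < pos (a j)
  mb : ∀ i j, i < j → j < k → pos (b i) < pos (b j)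
  side : (∀ i j, i < k → j < k → pos (a i) < pos (b j)) ∨
    (∀ i j, i < k → j < k → pos (b j) < pos (a i))

lemma step_lt {α : Type*} (r : α → α → Prop) (hr : ∀ a b c, r a b → r b c → r a c) (f : ℕ → α)
    (m : ℕ) (h : ∀ t, t + 1 ≤ m → r (f t) (f (t + 1))) : ∀ s t, s < t → t ≤ m → r (f s) (f t) := by
  intro s t hst
  induction t with
  | zero => omega
  | succ t ih =>
    intro ht
    rcases Nat.lt_or_ge s t with h1 | h1
    · exact hr _ _ _ (ih h1 (by omega)) (h t ht)
    · have : s = t := by omega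
      subst this
      exact h s ht

theorem core {n N k : ℕ} (hk : 1 ≤ k) (hN : 2 ^ (k * k) < N)
    (pos : Fin n ⊕ Finset (Fin n) → ℕ) (hinj : Function.Injective pos)
    (z : Fin (2 * N) → Fin n) (hz : StrictMono (fun i => pos (Sum.inl (z i))))
    (S : Finset (Fin n) → Prop)
    (hS : ∀ T : Finset (Fin n), ∃ A, S A ∧ ∀ i, z i ∈ A ↔ z i ∈ T)
    (hside : (∀ A, S A → ∀ i, pos (Sum.inl (z i)) < pos (Sum.inr A)) ∨
      (∀ A, S A → ∀ i, pos (Sum.inr A) < pos (Sum.inl (z i)))) :
    ∃ a b, Zig (Inc n) pos k a b := by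
  classical
  have hzinj : Function.Injective z := by
    intro i j h
    exact hz.injective (by simp only [h])
  let p : Fin N → Fin (2 * N) := fun i => ⟨i.val, by omega⟩
  let q : Fin N → Fin (2 * N) := fun i => ⟨2 * N - 1 - i.val, by omega⟩
  have hpp : ∀ i j, z (p i) = z (p j) ↔ i = j := by
    intro i j
    rw [hzinj.eq_iff]
    simp only [p, Fin.mk.injEq]
    exact Fin.ext_iff.symm
  have hqq : ∀ i j, z (q i) = z (q j) ↔ i = j := by
    intro i j
    rw [hzinj.eq_iff]
    simp only [q, Fin.ext_iff]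
    have := i.2
    have := j.2
    omega
  have hpq : ∀ i j, z (p i) ≠ z (q j) := by
    intro i j h
    rw [hzinj.eq_iff] at h
    simp only [p, q, Fin.mk.injEq] at h
    have := i.2
    have := j.2
    omega
  let T : Fin N → Fin N → Finset (Fin n) := fun i j => {z (p i), z (p j), z (q i), z (q j)}
  choose A hA1 hA2 using fun i j => hS (T i j)
  have hAp : ∀ i j t, z (p t) ∈ A i j ↔ t = i ∨ t = j := by
    intro i j t
    rw [hA2]
    simp only [T, Finset.mem_insert, Finset.mem_singleton, hpp, hpq, or_false]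
  have hAq : ∀ i j t, z (q t) ∈ A i j ↔ t = i ∨ t = j := by
    intro i j t
    rw [hA2]
    have h1 : ∀ s, ¬ z (q t) = z (p s) := fun s h => hpq s t h.symm
    simp only [T, Finset.mem_insert, Finset.mem_singleton, hqq, h1, false_or]
  have hq : ∀ i j l : Fin N, i < j → j < l →
      pos (Sum.inr (A i j)) ≠ pos (Sum.inr (A j l)) := by
    intro i j l hij hjl h
    have h1 : A i j = A j l := Sum.inr_injective (hinj h)
    have h2 : z (p i) ∈ A j l := by
      rw [← h1, hAp]; exact Or.inl rfl
    rw [hAp] at h2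
    rcases h2 with h2 | h2
    · exact hij.ne h2
    · exact (hij.trans hjl).ne h2
  rcases chain hk hN (fun i j => pos (Sum.inr (A i j))) hq with ⟨i, j, c, h1, h2, -, -⟩ |
    ⟨i, j, c, h1, h2, -, -⟩
  · have hc := step_lt (· < ·) (fun _ _ _ => lt_trans) c k (fun t ht => h1 t (by omega))
    have hcinj : ∀ s t, s ≤ k → t ≤ k → (c s = c t ↔ s = t) := by
      intro s t hs ht
      constructor
      · intro h
        by_contra hne
        rcases Nat.lt_or_gt_of_ne hne with h3 | h3
        · exact (hc s t h3 ht).ne h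
        · exact (hc t s h3 hs).ne h.symm
      · rintro rfl; rfl
    have hA := step_lt (· < ·) (fun _ _ _ => lt_trans)
      (fun t => pos (Sum.inr (A (c t) (c (t + 1))))) (k - 1) (fun t ht => h2 t (by omega))
    refine ⟨fun t => Sum.inl (z (p (c (t + 1)))), fun t => Sum.inr (A (c t) (c (t + 1))),
      ⟨?_, ?_, ?_, ?_, ?_, ?_⟩⟩
    · intro i j hi hj
      rw [inc_lr, hAp, hcinj _ _ (by omega) (by omega), hcinj _ _ (by omega) (by omega)]
      omega
    · intro i j; exact inc_ll _ _
    · intro i j; exact inc_rr _ _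
    · intro i j hij hj
      apply hz
      have := hc (i + 1) (j + 1) (by omega) (by omega)
      exact this
    · intro i j hij hj
      exact hA i j hij (by omega)
    · rcases hside with h | h
      · exact Or.inl (fun i j _ _ => h _ (hA1 _ _) _)
      · exact Or.inr (fun i j _ _ => h _ (hA1 _ _) _)
  · have hc := step_lt (· < ·) (fun _ _ _ => lt_trans) c k (fun t ht => h1 t (by omega))
    have hcinj : ∀ s t, s ≤ k → t ≤ k → (c s = c t ↔ s = t) := by
      intro s t hs ht
      constructor
      · intro h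
        by_contra hne
        rcases Nat.lt_or_gt_of_ne hne with h3 | h3
        · exact (hc s t h3 ht).ne h
        · exact (hc t s h3 hs).ne h.symm
      · rintro rfl; rfl
    have hA := step_lt (fun x y : ℕ => x > y) (fun _ _ _ h h' => lt_trans h' h)
      (fun t => pos (Sum.inr (A (c t) (c (t + 1))))) (k - 1) (fun t ht => h2 t (by omega))
    refine ⟨fun t => Sum.inl (z (q (c (k - 1 - t)))),
      fun t => Sum.inr (A (c (k - 1 - t)) (c (k - 1 - t + 1))), ⟨?_, ?_, ?_, ?_, ?_, ?_⟩⟩
    · intro i j hi hj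
      rw [inc_lr, hAq, hcinj _ _ (by omega) (by omega), hcinj _ _ (by omega) (by omega)]
      omega
    · intro i j; exact inc_ll _ _
    · intro i j; exact inc_rr _ _
    · intro i j hij hj
      apply hz
      have h3 := hc (k - 1 - j) (k - 1 - i) (by omega) (by omega)
      simp only [q, Fin.mk_lt_mk]
      have h4 : (c (k - 1 - j)).val < (c (k - 1 - i)).val := h3
      have h5 := (c (k - 1 - i)).2
      omega
    · intro i j hij hj
      exact hA (k - 1 - j) (k - 1 - i) (by omega) (by omega)
    · rcases hside with h | h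
      · exact Or.inl (fun i j _ _ => h _ (hA1 _ _) _)
      · exact Or.inr (fun i j _ _ => h _ (hA1 _ _) _)

theorem exists_zig {N k : ℕ} (hk : 1 ≤ k) (hN : 2 ^ (k * k) < N)
    (pos : Fin (4 * N) ⊕ Finset (Fin (4 * N)) → ℕ) (hinj : Function.Injective pos) :
    ∃ a b, Zig (Inc (4 * N)) pos k a b := by
  classical
  let e : Equiv.Perm (Fin (4 * N)) := Tuple.sort (fun x => pos (Sum.inl x))
  have he : StrictMono (fun i => pos (Sum.inl (e i))) := by
    have h1 : Monotone ((fun x => pos (Sum.inl x)) ∘ e) := Tuple.monotone_sort _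
    refine h1.strictMono_of_injective ?_
    intro i j h
    exact e.injective (Sum.inl_injective (hinj h))
  have hN0 : 0 < N := lt_of_le_of_lt (Nat.zero_le _) hN
  let θ : ℕ := pos (Sum.inl (e ⟨2 * N, by omega⟩))
  by_cases hL : ∀ T : Finset (Fin (4 * N)), ∃ A : Finset (Fin (4 * N)), θ < pos (Sum.inr A) ∧
      ∀ i : Fin (4 * N), i.val < 2 * N → (e i ∈ A ↔ e i ∈ T)
  · refine core hk hN pos hinj (fun i : Fin (2 * N) => e ⟨i.val, by omega⟩) ?_
      (fun A => θ < pos (Sum.inr A)) ?_ (Or.inl ?_)
    · intro i j hij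
      exact he (by simpa using hij)
    · intro T
      obtain ⟨A, h1, h2⟩ := hL T
      exact ⟨A, h1, fun i => h2 _ i.2⟩
    · intro A hA i
      refine lt_trans ?_ hA
      exact he (by rw [Fin.mk_lt_mk]; exact i.2)
  · push Not at hL
    obtain ⟨T, hT⟩ := hL
    have hT' : ∀ A : Finset (Fin (4 * N)), (∀ i : Fin (4 * N), i.val < 2 * N →
        (e i ∈ A ↔ e i ∈ T)) → pos (Sum.inr A) < θ := by
      intro A hA
      by_contra hc
      rw [not_lt] at hc
      have hne : θ ≠ pos (Sum.inr A) := fun h => by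
        have := hinj h
        exact Sum.inl_ne_inr this
      obtain ⟨i, hi, h3⟩ := hT A (lt_of_le_of_ne hc hne)
      have := hA i hi
      tauto
    refine core hk hN pos hinj (fun i : Fin (2 * N) => e ⟨2 * N + i.val, by omega⟩) ?_
      (fun A => pos (Sum.inr A) < θ) ?_ (Or.inr ?_)
    · intro i j hij
      refine he ?_
      rw [Fin.mk_lt_mk]
      have : i.val < j.val := hij
      omega
    · intro T'
      refine ⟨Finset.univ.filter (fun x => if (e.symm x).val < 2 * N then x ∈ T else x ∈ T'),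
        ?_, ?_⟩
      · apply hT'
        intro i hi
        simp [hi]
      · intro i
        simp
    · intro A hA i
      refine lt_of_lt_of_le hA ?_
      refine he.monotone ?_
      rw [Fin.mk_le_mk]
      omega

end Q109.Circ
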